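import Pool.Agent.Helper86.MQ.Defs
import Pool.Agent.Helper52.AT.Aff

/-!
# Orbits of polynomial maps of affine space attracted by an unramified point at infinity with real
multipliers
-/

set_option autoImplicit false

namespace Pool.Agent.Helper52.PP

open Filter Topology MvPolynomial
open Pool.Agent.Helper86.MQ (pm)
open Pool.Agent.Helper52.AT (affine_main)

/-! ## Eventually periodic sets -/

/-- eventually periodic sets of natural numbers -/
def EvPer (S : Set ℕ) : Prop := ∃ P n₀ : ℕ, 1 ≤ P ∧ ∀ n ≥ n₀, n + P ∈ S ↔ n ∈ S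

theorem EvPer.mul {S : Set ℕ} {P n₀ : ℕ} (h : ∀ n ≥ n₀, n + P ∈ S ↔ n ∈ S) (k : ℕ) :
    ∀ n ≥ n₀, n + P * k ∈ S ↔ n ∈ S := by
  induction k with
  | zero => simp
  | succ k ih =>
    intro n hn
    have h1 := h (n + P * k) (by omega)
    rw [mul_add, mul_one, ← add_assoc, h1, ih n hn]

/-- a set is eventually periodic if its traces on the classes modulo `q` are -/
theorem evPer_classes {S : Set ℕ} {q : ℕ} (hq : 1 ≤ q) (h : ∀ r < q, EvPer {n | q * n + r ∈ S}) :
    EvPer S := by
  choose! P n₀ hP hper using h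
  refine ⟨q * ∏ r ∈ Finset.range q, P r, q * (∑ r ∈ Finset.range q, n₀ r + 1), ?_, ?_⟩
  · refine Nat.mul_pos hq (Finset.prod_pos fun r hr => hP r (Finset.mem_range.1 hr))
  · intro n hn
    obtain ⟨m, r, hr, rfl⟩ : ∃ m r, r < q ∧ n = q * m + r :=
      ⟨n / q, n % q, Nat.mod_lt _ hq, (Nat.div_add_mod n q).symm⟩
    have h1 : n₀ r ≤ ∑ r ∈ Finset.range q, n₀ r :=
      Finset.single_le_sum (f := n₀) (fun _ _ => Nat.zero_le _) (Finset.mem_range.2 hr)
    have h2 : n₀ r ≤ m := by
      by_contra hcon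
      push Not at hcon
      have h3 : q * m + r < q * (m + 1) := by rw [mul_add]; omega
      have h4 : q * (m + 1) ≤ q * (∑ r ∈ Finset.range q, n₀ r + 1) :=
        Nat.mul_le_mul_left _ (by omega)
      omega
    obtain ⟨k, hk⟩ : P r ∣ ∏ r ∈ Finset.range q, P r := Finset.dvd_prod_of_mem P (Finset.mem_range.2 hr)
    have h3 := EvPer.mul (hper r hr) k m h2
    have h4 : q * m + r + q * ∏ r ∈ Finset.range q, P r = q * (m + P r * k) + r := by
      rw [hk]; ring
    rw [h4]
    exact h3

/-- eventually periodic sets are finite unions of arithmetic progressions -/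
theorem EvPer.aps {S : Set ℕ} (h : EvPer S) :
    ∃ T : Finset (ℕ × ℕ), S = {n : ℕ | ∃ t ∈ T, ∃ k : ℕ, n = t.1 + t.2 * k} := by
  classical
  obtain ⟨P, n₀, hP, h⟩ := h
  refine ⟨((Finset.range n₀).filter (· ∈ S)).image (fun a => (a, 0)) ∪
    ((Finset.Ico n₀ (n₀ + P)).filter (· ∈ S)).image (fun a => (a, P)), ?_⟩
  ext n
  simp only [Set.mem_ofPred_eq, Finset.mem_union, Finset.mem_image, Finset.mem_filter,
    Finset.mem_range, Finset.mem_Ico]
  constructor
  · intro hn
    rcases lt_or_ge n n₀ with h1 | h1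
    · exact ⟨(n, 0), Or.inl ⟨n, ⟨h1, hn⟩, rfl⟩, 0, by simp⟩
    · set a := n₀ + (n - n₀) % P with ha
      have h2 : n = a + P * ((n - n₀) / P) := by
        have := Nat.mod_add_div (n - n₀) P
        omega
      have h3 : a ∈ S := by
        rw [h2] at hn
        exact (EvPer.mul h _ a (by omega)).1 hn
      have h4 : (n - n₀) % P < P := Nat.mod_lt _ hP
      exact ⟨(a, P), Or.inr ⟨a, ⟨⟨by omega, by omega⟩, h3⟩, rfl⟩, _, h2⟩
  · rintro ⟨t, (⟨a, ⟨_, ha⟩, rfl⟩ | ⟨a, ⟨⟨ha1, _⟩, ha⟩, rfl⟩), k, rfl⟩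
    · simpa using ha
    · exact (EvPer.mul h k a ha1).2 ha

/-- directional derivatives -/
theorem dir_deriv {σ : Type*} [Fintype σ] (a h : σ → ℂ) (P : MvPolynomial σ ℂ) :
    (Polynomial.derivative (aeval (fun j => Polynomial.C (a j) +
      Polynomial.C (h j) * Polynomial.X) P)).eval 0 = ∑ j, h j * eval a (pderiv j P) ∧
    (aeval (fun j => Polynomial.C (a j) + Polynomial.C (h j) * (Polynomial.X : Polynomial ℂ))
      P).eval 0 = eval a P := by
  classical
  induction P using MvPolynomial.induction_on with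
  | C c =>
    constructor
    · simp
    · simp
  | add p q hp hq =>
    constructor
    · simp only [map_add, Polynomial.eval_add, hp.1, hq.1, mul_add, Finset.sum_add_distrib]
    · simp only [map_add, Polynomial.eval_add, hp.2, hq.2]
  | mul_X p i hp =>
    constructor
    · have h1 : ∀ j, h j * eval a (pderiv j (p * X i)) =
          h j * eval a (pderiv j p) * a i + (if j = i then h i * eval a p else 0) := by
        intro j
        rw [Derivation.leibniz, pderiv_X, map_add, smul_eq_mul, smul_eq_mul, map_mul, map_mul,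
          eval_X]
        by_cases hj : j = i
        · subst hj
          rw [if_pos rfl, Pi.single_eq_same, map_one]
          ring
        · rw [if_neg hj, Pi.single_eq_of_ne (Ne.symm hj), map_zero]
          ring
      rw [Finset.sum_congr rfl fun j _ => h1 j, Finset.sum_add_distrib, ← Finset.sum_mul, ← hp.1,
        Finset.sum_ite_eq' , if_pos (Finset.mem_univ _), ← hp.2, map_mul, aeval_X,
        Polynomial.derivative_mul, Polynomial.eval_add, Polynomial.eval_mul, Polynomial.eval_mul]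
      simp
      ring
    · rw [map_mul, aeval_X, Polynomial.eval_mul, hp.2, map_mul, eval_X]
      simp

variable {m : ℕ}

/-- The polynomial `G` of degree at most `D` in the coordinates `x_i / x_N - v_i`, `1 / x_N`. -/
noncomputable def hm (D : ℕ) (v : Fin (m + 1) → ℂ) (G : MvPolynomial (Fin (m + 1)) ℂ) :
    MvPolynomial (Fin (m + 1)) ℂ :=
  ∑ s ∈ G.support, C (coeff s G) * (∏ i : Fin m, (X i.castSucc + C (v i.castSucc)) ^ s i.castSucc) *
    X (Fin.last m) ^ (D - s.degree)

/-- the coordinates at the point at infinity -/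
noncomputable def yc (v x : Fin (m + 1) → ℂ) (i : Fin (m + 1)) : ℂ :=
  if i = Fin.last m then (x (Fin.last m))⁻¹ else x i / x (Fin.last m) - v i

theorem degree_split (s : Fin (m + 1) →₀ ℕ) :
    s.degree = ∑ i : Fin m, s i.castSucc + s (Fin.last m) := by
  rw [Finsupp.degree_eq_sum, Fin.sum_univ_castSucc]

theorem eval_hm {D : ℕ} (v x : Fin (m + 1) → ℂ) {G : MvPolynomial (Fin (m + 1)) ℂ}
    (hG : G.totalDegree ≤ D) (hx : x (Fin.last m) ≠ 0) :
    eval (yc v x) (hm D v G) * x (Fin.last m) ^ D = eval x G := by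
  rw [hm, map_sum, Finset.sum_mul, eval_eq']
  refine Finset.sum_congr rfl fun s hs => ?_
  have hdeg : s.degree ≤ D := (le_totalDegree hs).trans hG
  rw [map_mul, map_mul, eval_C, map_prod, map_pow, eval_X]
  have h1 : ∏ i : Fin m, eval (yc v x) ((X i.castSucc + C (v i.castSucc)) ^ s i.castSucc) =
      (∏ i : Fin m, x i.castSucc ^ s i.castSucc) *
        ((x (Fin.last m))⁻¹) ^ ∑ i : Fin m, s i.castSucc := by
    rw [← Finset.prod_pow_eq_pow_sum, ← Finset.prod_mul_distrib]
    refine Finset.prod_congr rfl fun i _ => ?_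
    rw [map_pow, map_add, eval_X, eval_C, yc, if_neg (Fin.castSucc_ne_last i), sub_add_cancel,
      div_eq_mul_inv, mul_pow]
  have h2 : yc v x (Fin.last m) = (x (Fin.last m))⁻¹ := by rw [yc, if_pos rfl]
  rw [h1, h2, Fin.prod_univ_castSucc]
  have h3 : ((x (Fin.last m))⁻¹) ^ (∑ i : Fin m, s i.castSucc) *
      ((x (Fin.last m))⁻¹) ^ (D - s.degree) * x (Fin.last m) ^ D =
      x (Fin.last m) ^ s (Fin.last m) := by
    obtain ⟨k, hk⟩ : ∃ k, D - s.degree = k := ⟨_, rfl⟩
    have h4 : D = (∑ i : Fin m, s i.castSucc) + k + s (Fin.last m) := by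
      have := degree_split s
      omega
    rw [hk, h4, pow_add, pow_add, inv_pow, inv_pow]
    field_simp
  calc coeff s G * ((∏ i : Fin m, x i.castSucc ^ s i.castSucc) *
        ((x (Fin.last m))⁻¹) ^ ∑ i : Fin m, s i.castSucc) *
        ((x (Fin.last m))⁻¹) ^ (D - s.degree) * x (Fin.last m) ^ D
      = coeff s G * (∏ i : Fin m, x i.castSucc ^ s i.castSucc) *
        (((x (Fin.last m))⁻¹) ^ (∑ i : Fin m, s i.castSucc) *
        ((x (Fin.last m))⁻¹) ^ (D - s.degree) * x (Fin.last m) ^ D) := by ring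
    _ = _ := by rw [h3]; ring

/-- on the hyperplane at infinity, `hm` is the form of degree `D` -/
theorem hm_line {D : ℕ} (v h : Fin (m + 1) → ℂ) (hv : v (Fin.last m) = 1)
    (hh : h (Fin.last m) = 0) {G : MvPolynomial (Fin (m + 1)) ℂ} (hG : G.totalDegree ≤ D) :
    aeval (fun j => Polynomial.C ((0 : Fin (m + 1) → ℂ) j) +
      Polynomial.C (h j) * (Polynomial.X : Polynomial ℂ)) (hm D v G) =
    aeval (fun j => Polynomial.C (v j) + Polynomial.C (h j) * (Polynomial.X : Polynomial ℂ))
      (homogeneousComponent D G) := by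
  classical
  rw [hm, map_sum, homogeneousComponent_apply, map_sum, Finset.sum_filter]
  refine Finset.sum_congr rfl fun s hs => ?_
  have hdeg : s.degree ≤ D := (le_totalDegree hs).trans hG
  rw [map_mul, map_mul, aeval_C, map_prod, map_pow, aeval_X, hh]
  split_ifs with h1
  · rw [h1, Nat.sub_self, pow_zero, mul_one, aeval_monomial,
      Finsupp.prod_fintype _ _ (fun _ => pow_zero _), Fin.prod_univ_castSucc, hv, hh]
    congr 1
    simp only [map_one, map_zero, zero_mul, add_zero, one_pow, mul_one]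
    refine Finset.prod_congr rfl fun i _ => ?_
    rw [map_pow, map_add, aeval_X, aeval_C]
    congr 1
    simp only [Pi.zero_apply, map_zero, zero_add]
    rw [add_comm]
    rfl
  · have h2 : D - s.degree ≠ 0 := by omega
    simp only [Pi.zero_apply, map_zero, zero_mul, add_zero]
    rw [zero_pow h2, mul_zero]

theorem hm_zero {D : ℕ} (v : Fin (m + 1) → ℂ) (hv : v (Fin.last m) = 1)
    {G : MvPolynomial (Fin (m + 1)) ℂ} (hG : G.totalDegree ≤ D) :
    eval 0 (hm D v G) = eval v (homogeneousComponent D G) := by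
  have h1 := hm_line v 0 hv rfl hG
  rw [← (dir_deriv (0 : Fin (m + 1) → ℂ) 0 (hm D v G)).2, h1, (dir_deriv v 0 _).2]

theorem hm_deriv {D : ℕ} (v h : Fin (m + 1) → ℂ) (hv : v (Fin.last m) = 1)
    (hh : h (Fin.last m) = 0) {G : MvPolynomial (Fin (m + 1)) ℂ} (hG : G.totalDegree ≤ D) :
    ∑ j, h j * eval 0 (pderiv j (hm D v G)) =
      ∑ j, h j * eval v (pderiv j (homogeneousComponent D G)) := by
  rw [← (dir_deriv (0 : Fin (m + 1) → ℂ) h (hm D v G)).1, hm_line v h hv hh hG,
    (dir_deriv v h _).1]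

/-- the matrix of the differential at the point at infinity, times `c` -/
noncomputable def qm (d : ℕ) (Φ : Fin (m + 1) → MvPolynomial (Fin (m + 1)) ℂ)
    (v : Fin (m + 1) → ℂ) (i j : Fin m) : ℂ :=
  eval v (pderiv j.castSucc (homogeneousComponent d (Φ i.castSucc))) -
    v i.castSucc * eval v (pderiv j.castSucc (homogeneousComponent d (Φ (Fin.last m))))

/-- **Orbits attracted by an unramified point at infinity with real multipliers.** -/
theorem affine_attracted {d : ℕ} (hd : 2 ≤ d) {Φ : Fin (m + 1) → MvPolynomial (Fin (m + 1)) ℂ}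
    (hdeg : ∀ i, (Φ i).totalDegree ≤ d) (α : Fin (m + 1) → ℂ) {v : Fin (m + 1) → ℂ}
    (hv : v (Fin.last m) = 1) {ρ : ℝ} (hρ0 : 0 < ρ) (hρ1 : ρ < 1)
    (hx : ∃ C : ℝ, ∀ᶠ n in atTop, (pm Φ)^[n] α (Fin.last m) ≠ 0 ∧
      ‖((pm Φ)^[n] α (Fin.last m))⁻¹‖ ≤ C * ρ ^ n ∧
      ∀ i, ‖(pm Φ)^[n] α i / (pm Φ)^[n] α (Fin.last m) - v i‖ ≤ C * ρ ^ n)
    {c : ℂ} (hc : c ≠ 0) (hF : ∀ i, eval v (homogeneousComponent d (Φ i)) = c * v i)
    (hinj : ∀ h : Fin m → ℂ, (∀ i, ∑ j, qm d Φ v i j * h j = 0) → h = 0)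
    (hreal : ∀ (z : ℂ) (h : Fin m → ℂ), h ≠ 0 →
      (∀ i, ∑ j, qm d Φ v i j * h j = c * z * h i) → z.im = 0)
    (V : Set (MvPolynomial (Fin (m + 1)) ℂ)) :
    ∃ T : Finset (ℕ × ℕ), {n : ℕ | ∀ G ∈ V, eval ((pm Φ)^[n] α) G = 0} =
      {n : ℕ | ∃ t ∈ T, ∃ k : ℕ, n = t.1 + t.2 * k} := by
  classical
  obtain ⟨C₁, hx⟩ := hx
  set x : ℕ → Fin (m + 1) → ℂ := fun n => (pm Φ)^[n] α with hxdef
  have hxs : ∀ n i, x (n + 1) i = eval (x n) (Φ i) := by
    intro n i
    simp only [hxdef]
    rw [Function.iterate_succ_apply', pm]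
  set y : ℕ → Fin (m + 1) → ℂ := fun n => yc v (x n) with hy
  set Q : MvPolynomial (Fin (m + 1)) ℂ := hm d v (Φ (Fin.last m)) with hQ
  set P : Fin (m + 1) → MvPolynomial (Fin (m + 1)) ℂ := fun i =>
    if i = Fin.last m then X (Fin.last m) ^ d else hm d v (Φ i) - C (v i) * Q with hP
  have hd0 : d ≠ 0 := by omega
  have hQ0 : eval 0 Q = c := by
    rw [hQ, hm_zero v hv (hdeg _), hF, hv, mul_one]
  have hylast : ∀ n, y n (Fin.last m) = (x n (Fin.last m))⁻¹ := by
    intro n
    exact if_pos rfl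
  have hyne : ∀ n i, i ≠ Fin.last m → y n i = x n i / x n (Fin.last m) - v i := by
    intro n i hi
    exact if_neg hi
  have hPlast : P (Fin.last m) = X (Fin.last m) ^ d := if_pos rfl
  have hPne : ∀ i, i ≠ Fin.last m → P i = hm d v (Φ i) - C (v i) * Q := by
    intro i hi
    exact if_neg hi
  have hx1 : ∀ᶠ n in atTop, x n (Fin.last m) ≠ 0 ∧ x (n + 1) (Fin.last m) ≠ 0 := by
    filter_upwards [hx, (tendsto_add_atTop_nat 1).eventually hx] with n h1 h2
    exact ⟨h1.1, h2.1⟩
  have hQx : ∀ n, x n (Fin.last m) ≠ 0 →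
      eval (y n) Q * x n (Fin.last m) ^ d = x (n + 1) (Fin.last m) := by
    intro n hn
    rw [hxs]
    exact eval_hm v (x n) (hdeg _) hn
  -- the derivative of the last component
  have hlastd : ∀ h : Fin (m + 1) → ℂ, ∑ j, h j * eval 0 (pderiv j (P (Fin.last m))) = 0 := by
    intro h
    refine Finset.sum_eq_zero fun j _ => ?_
    rw [hPlast, Derivation.leibniz_pow, map_nsmul, smul_eq_mul, map_mul, map_pow, eval_X,
      Pi.zero_apply, zero_pow (by omega : d - 1 ≠ 0), zero_mul, smul_zero, mul_zero]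
  -- the derivatives of the others
  have hder : ∀ h : Fin (m + 1) → ℂ, h (Fin.last m) = 0 → ∀ i : Fin m,
      ∑ j, h j * eval 0 (pderiv j (P i.castSucc)) =
        ∑ j : Fin m, qm d Φ v i j * h j.castSucc := by
    intro h hh i
    have h1 : ∑ j, h j * eval 0 (pderiv j (P i.castSucc)) =
        ∑ j, h j * eval 0 (pderiv j (hm d v (Φ i.castSucc))) -
          v i.castSucc * ∑ j, h j * eval 0 (pderiv j Q) := by
      rw [Finset.mul_sum, ← Finset.sum_sub_distrib]
      refine Finset.sum_congr rfl fun j _ => ?_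
      rw [hPne _ (Fin.castSucc_ne_last i), map_sub, map_sub, Derivation.leibniz, pderiv_C,
        smul_zero, add_zero, smul_eq_mul, map_mul, eval_C]
      ring
    rw [h1, hQ, hm_deriv v h hv hh (hdeg _), hm_deriv v h hv hh (hdeg _), Fin.sum_univ_castSucc,
      Fin.sum_univ_castSucc, hh, zero_mul, add_zero, zero_mul, add_zero, Finset.mul_sum,
      ← Finset.sum_sub_distrib]
    refine Finset.sum_congr rfl fun j _ => ?_
    rw [qm]
    ring
  have main : ∀ (g : MvPolynomial (Fin (m + 1)) ℂ) (r : ℕ),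
      (∀ᶠ n in atTop, eval (y (2 * n + r)) g = 0) ∨
        (∀ᶠ n in atTop, eval (y (2 * n + r)) g ≠ 0) := by
    intro g r
    have hreals : ∀ μ ∈ Submonoid.closure {x : ℂ | ∃ h ∈ Pool.Agent.Helper52.AT.Tan y, h ≠ 0 ∧
        ∀ i, ∑ j, h j * eval 0 (pderiv j (P i)) = x * eval 0 Q * h i}, μ.im = 0 := by
      intro μ hμ
      induction hμ using Submonoid.closure_induction with
      | mem z hz =>
        obtain ⟨h, -, hh, hz⟩ := hz
        by_cases hl : h (Fin.last m) = 0
        · refine hreal z (fun j => h j.castSucc) ?_ ?_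
          · intro h0
            apply hh
            funext i
            refine Fin.lastCases ?_ (fun i => ?_) i
            · exact hl
            · exact congrFun h0 i
          · intro i
            rw [← hder h hl i, hz, hQ0]
            ring
        · have h1 := hz (Fin.last m)
          rw [hlastd, hQ0] at h1
          have h2 : z = 0 := by
            rcases mul_eq_zero.1 h1.symm with h3 | h3
            · exact (mul_eq_zero.1 h3).resolve_right hc
            · exact absurd h3 hl
          rw [h2, Complex.zero_im]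
      | one => exact Complex.one_im
      | mul z z' _ _ h1 h2 => rw [Complex.mul_im, h1, h2, mul_zero, zero_mul, add_zero]
    refine affine_main y ρ hρ0 hρ1 ?_ P Q (by rw [hQ0]; exact hc) ?_ ?_ (X (Fin.last m))
      (X (Fin.last m) ^ (d - 2)) Q ?_ (by rw [hQ0]; exact hc) ?_ ?_ (M := 2) (by norm_num) ?_ g r
    · refine ⟨C₁, hx.mono fun n hn i => ?_⟩
      refine Fin.lastCases ?_ (fun i => ?_) i
      · rw [hylast]
        exact hn.2.1
      · rw [hyne _ _ (Fin.castSucc_ne_last i)]
        exact hn.2.2 _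
    · intro i
      refine Fin.lastCases ?_ (fun i => ?_) i
      · rw [hPlast, map_pow, eval_X, Pi.zero_apply, zero_pow hd0]
      · rw [hPne _ (Fin.castSucc_ne_last i), map_sub, map_mul, eval_C, hQ0,
          hm_zero v hv (hdeg _), hF]
        ring
    · filter_upwards [hx1] with n hn i
      have h1 := hQx n hn.1
      have h2 : eval (y n) Q = x (n + 1) (Fin.last m) / x n (Fin.last m) ^ d := by
        rw [eq_div_iff (pow_ne_zero _ hn.1)]
        exact h1
      refine Fin.lastCases ?_ (fun i => ?_) i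
      · rw [hylast, h2, hPlast, map_pow, eval_X, hylast, inv_pow]
        have := hn.2
        field_simp
      · have h3 : eval (y n) (hm d v (Φ i.castSucc)) =
            x (n + 1) i.castSucc / x n (Fin.last m) ^ d := by
          rw [eq_div_iff (pow_ne_zero _ hn.1), hxs]
          exact eval_hm v (x n) (hdeg _) hn.1
        rw [hyne _ _ (Fin.castSucc_ne_last i), hPne _ (Fin.castSucc_ne_last i), map_sub, map_mul,
          eval_C, h3, h2]
        have := hn.2
        field_simp
    · rw [eval_X, Pi.zero_apply]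
    · filter_upwards [hx1] with n hn
      have h1 := hQx n hn.1
      have h2 : eval (y n) Q = x (n + 1) (Fin.last m) / x n (Fin.last m) ^ d := by
        rw [eq_div_iff (pow_ne_zero _ hn.1)]
        exact h1
      simp only [eval_X, map_pow]
      rw [hylast, hylast, ← pow_add, Nat.sub_add_cancel hd, h2, inv_pow]
      have := hn.2
      field_simp
    · intro h _ h1 h2
      have hl : h (Fin.last m) = 0 := by
        rw [Finset.sum_eq_single (Fin.last m)] at h1
        · rwa [pderiv_X_self, map_one, mul_one] at h1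
        · intro b _ hb
          rw [pderiv_X_of_ne (Ne.symm hb), map_zero, mul_zero]
        · intro h3
          exact absurd (Finset.mem_univ _) h3
      have h3 : (fun j : Fin m => h j.castSucc) = 0 := by
        refine hinj _ fun i => ?_
        rw [← hder h hl i]
        exact h2 _
      funext i
      refine Fin.lastCases ?_ (fun i => ?_) i
      · exact hl
      · exact congrFun h3 i
    · intro μ hμ ν hν hnorm
      have h1 := hreals μ hμ
      have h2 := hreals ν hν
      have h3 : (μ.re : ℂ) = μ := Complex.ext rfl (by rw [Complex.ofReal_im, h1])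
      have h4 : (ν.re : ℂ) = ν := Complex.ext rfl (by rw [Complex.ofReal_im, h2])
      rw [← h3, ← h4, Complex.norm_real, Complex.norm_real, Real.norm_eq_abs,
        Real.norm_eq_abs] at hnorm
      rw [← h3, ← h4, ← Complex.ofReal_pow, ← Complex.ofReal_pow, ← sq_abs, hnorm, sq_abs]
  -- finitely many polynomials suffice
  obtain ⟨B₀, hB₀, hB₀z⟩ : ∃ B₀ : Finset (MvPolynomial (Fin (m + 1)) ℂ), (∀ F ∈ B₀, F ∈ V) ∧
        ∀ v : Fin (m + 1) → ℂ, (∀ F ∈ B₀, eval v F = 0) → ∀ F ∈ V, eval v F = 0 := by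
    obtain ⟨B₀, hB₀, hspan⟩ := (Submodule.fg_span_iff_fg_span_finset_subset V).mp
      (IsNoetherian.noetherian (Submodule.span (MvPolynomial (Fin (m + 1)) ℂ) V))
    refine ⟨B₀, fun F hF => hB₀ hF, fun v hv F hF => ?_⟩
    have h1 : F ∈ Submodule.span (MvPolynomial (Fin (m + 1)) ℂ)
        (B₀ : Set (MvPolynomial (Fin (m + 1)) ℂ)) := by
      rw [← hspan]
      exact Submodule.subset_span hF
    refine Submodule.span_induction (p := fun F _ => eval v F = 0) ?_ ?_ ?_ ?_ h1
    · intro G hG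
      exact hv G hG
    · simp
    · intro G H _ _ hG hH
      rw [map_add, hG, hH, add_zero]
    · intro a G _ hG
      rw [smul_eq_mul, map_mul, hG, mul_zero]
  refine (evPer_classes (q := 2) (by norm_num) fun s _ => ?_).aps
  have htend : Tendsto (fun n => 2 * n + s) atTop atTop :=
    tendsto_atTop_mono (fun n => show n ≤ 2 * n + s by omega) tendsto_id
  have key : ∀ E : MvPolynomial (Fin (m + 1)) ℂ,
      (∀ᶠ n in atTop, eval (x (2 * n + s)) E = 0) ∨
      (∀ᶠ n in atTop, eval (x (2 * n + s)) E ≠ 0) := by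
    intro E
    have h1 := htend.eventually hx
    rcases main (hm E.totalDegree v E) s with h | h
    · left
      filter_upwards [h, h1] with n h2 h3
      rw [← eval_hm v (x (2 * n + s)) le_rfl h3.1]
      rw [show yc v (x (2 * n + s)) = y (2 * n + s) from rfl, h2, zero_mul]
    · right
      filter_upwards [h, h1] with n h2 h3
      rw [← eval_hm v (x (2 * n + s)) le_rfl h3.1]
      exact mul_ne_zero h2 (pow_ne_zero _ h3.1)
  have hiff : ∀ n, n ∈ {n | 2 * n + s ∈ {n : ℕ | ∀ G ∈ V, eval ((pm Φ)^[n] α) G = 0}} ↔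
      ∀ E ∈ B₀, eval (x (2 * n + s)) E = 0 := by
    intro n
    simp only [Set.mem_ofPred_eq]
    exact ⟨fun h E hE => h E (hB₀ E hE), fun h => hB₀z _ h⟩
  by_cases hall : ∀ E ∈ B₀, ∀ᶠ n in atTop, eval (x (2 * n + s)) E = 0
  · have h1 : ∀ᶠ n in atTop, ∀ E ∈ B₀, eval (x (2 * n + s)) E = 0 := by
      rw [Filter.eventually_all_finset]
      exact hall
    obtain ⟨n₀, hn₀⟩ := eventually_atTop.1 h1
    refine ⟨1, n₀, le_rfl, fun n hn => ?_⟩
    rw [hiff, hiff]
    exact ⟨fun _ => hn₀ n hn, fun _ => hn₀ (n + 1) (by omega)⟩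
  · push Not at hall
    obtain ⟨E, hE, hne⟩ := hall
    have h1 : ∀ᶠ n in atTop, eval (x (2 * n + s)) E ≠ 0 :=
      (key E).resolve_left (fun h => hne (h.mono fun n hn => not_not.2 hn))
    obtain ⟨n₀, hn₀⟩ := eventually_atTop.1 h1
    refine ⟨1, n₀, le_rfl, fun n hn => ?_⟩
    rw [hiff, hiff]
    exact ⟨fun h => absurd (h E hE) (hn₀ (n + 1) (by omega)), fun h => absurd (h E hE) (hn₀ n hn)⟩

end Pool.Agent.Helper52.PP
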